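import Mathlib

set_option autoImplicit false

namespace Pool.Agent.Results.MP_cd4b59_co.Cex

def Irr {m : ℕ} (G : SimpleGraph (Fin m)) (D : Finset (Fin m)) : Prop :=
  ∀ v ∈ D, ∃ w, (w = v ∨ G.Adj w v) ∧ ∀ u ∈ D, u ≠ v → ¬ (u = w ∨ G.Adj u w)

def IRset {m : ℕ} (G : SimpleGraph (Fin m)) (D : Finset (Fin m)) : Prop :=
  Irr G D ∧ ∀ D', Irr G D' → D'.card ≤ D.card

def IRgraph {m : ℕ} (G : SimpleGraph (Fin m)) : SimpleGraph {D // IRset G D} :=
  SimpleGraph.fromRel fun D D' => ∃ u ∈ D.1, ∃ v ∈ D'.1, G.Adj u v ∧ D'.1 = insert v (D.1.erase u)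

def nb (a b : Fin 9) : Bool :=
  ([480, 472, 440, 214, 302, 341, 171, 79, 55].getD a.val 0).testBit b.val

def G0 : SimpleGraph (Fin 9) where
  Adj a b := nb a b = true
  symm := ⟨by decide +kernel⟩
  loopless := ⟨by decide +kernel⟩

instance : DecidableRel G0.Adj := fun a b => inferInstanceAs (Decidable (nb a b = true))

instance : DecidablePred (Irr G0) := fun D => by unfold Irr; infer_instance

def f : Fin 7 → Finset (Fin 9) :=
  ![{1, 3, 6}, {1, 6, 7}, {0, 1, 7}, {0, 1, 2}, {0, 2, 8}, {2, 5, 8}, {2, 4, 5}]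

lemma k3 : ∀ D ∈ (Finset.univ : Finset (Fin 9)).powersetCard 3, Irr G0 D → ∃ i, f i = D := by
  decide +kernel

lemma k4 : ∀ D ∈ (Finset.univ : Finset (Fin 9)).powersetCard 4, ¬ Irr G0 D := by
  decide +kernel

lemma le3 (D : Finset (Fin 9)) (h : Irr G0 D) : D.card ≤ 3 := by
  by_contra hn
  obtain ⟨T, hT, hc⟩ := Finset.exists_subset_card_eq (s := D) (n := 4) (by omega)
  refine k4 T (Finset.mem_powersetCard.2 ⟨T.subset_univ, hc⟩) fun v hv => ?_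
  obtain ⟨w, h1, h2⟩ := h v (hT hv)
  exact ⟨w, h1, fun u hu => h2 u (hT hu)⟩

lemma f_ok : ∀ i, Irr G0 (f i) ∧ (f i).card = 3 := by decide +kernel

lemma f_ir (i : Fin 7) : IRset G0 (f i) :=
  ⟨(f_ok i).1, fun D h => (f_ok i).2 ▸ le3 D h⟩

lemma f_inj : Function.Injective f := by decide +kernel

lemma f_adj : ∀ i j : Fin 7, (f i ≠ f j ∧
    ((∃ u ∈ f i, ∃ v ∈ f j, G0.Adj u v ∧ f j = insert v ((f i).erase u)) ∨
     (∃ u ∈ f j, ∃ v ∈ f i, G0.Adj u v ∧ f i = insert v ((f j).erase u)))) ↔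
    (i.val + 1 = j.val ∨ j.val + 1 = i.val) := by decide +kernel

theorem result : ∃ (n m : ℕ) (G : SimpleGraph (Fin m)),
    3 ≤ n ∧ Nonempty (SimpleGraph.pathGraph n ≃g IRgraph G) := by
  refine ⟨7, 9, G0, by norm_num, ⟨⟨Equiv.ofBijective (fun i => ⟨f i, f_ir i⟩)
    ⟨fun i j h => f_inj (congrArg Subtype.val h), ?_⟩, ?_⟩⟩⟩
  · rintro ⟨D, hD⟩
    have h1 := le3 D hD.1
    have h2 := hD.2 _ (f_ok 0).1
    rw [(f_ok 0).2] at h2
    obtain ⟨i, hi⟩ := k3 D (Finset.mem_powersetCard.2 ⟨D.subset_univ, by omega⟩) hD.1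
    exact ⟨i, Subtype.ext hi⟩
  · intro i j
    rw [SimpleGraph.pathGraph_adj, ← f_adj, IRgraph, SimpleGraph.fromRel_adj]
    simp only [Equiv.ofBijective_apply, ne_eq, Subtype.mk.injEq]

end Pool.Agent.Results.MP_cd4b59_co.Cex
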